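import Mathlib

open Finset PowerSeries Filter Topology

namespace Pool.Agent.Results.MP_58bd73_nt.Counter

/-- the `m`-fold Cauchy convolution of the Prouhet-Thue-Morse sequence -/
noncomputable def t (m n : ℕ) : ℤ :=
  coeff n ((PowerSeries.mk fun k : ℕ => (-1 : ℤ) ^ (Nat.digits 2 k).sum) ^ m)

/-- proportion of the exceptional set below `N` -/
noncomputable def dens (m j N : ℕ) : ℝ :=
  (((range N).filter fun n => Int.sign (t m (3 * n + j)) ≠ (-1) ^ j).card : ℝ) / N

noncomputable def T : ℤ⟦X⟧ := PowerSeries.mk fun k : ℕ => (-1 : ℤ) ^ (Nat.digits 2 k).sum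

lemma s_even (k : ℕ) : (Nat.digits 2 (2 * k)).sum = (Nat.digits 2 k).sum := by
  rcases Nat.eq_zero_or_pos k with rfl | hk
  · simp
  · rw [Nat.digits_def' (by norm_num) (by omega)]
    simp

lemma s_odd (k : ℕ) : (Nat.digits 2 (2 * k + 1)).sum = (Nat.digits 2 k).sum + 1 := by
  rw [Nat.digits_def' (by norm_num) (by omega)]
  have : (2 * k + 1) / 2 = k := by omega
  rw [this]
  simp [add_comm]

lemma T_eq : T = (1 - X) * expand 2 two_ne_zero T := by
  ext n
  rw [sub_mul, one_mul, map_sub]
  rcases Nat.even_or_odd' n with ⟨k, rfl | rfl⟩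
  · rw [coeff_expand_mul]
    rcases k with _ | k
    · simp
    · rw [show 2 * (k + 1) = 2 * k + 1 + 1 by ring, coeff_succ_X_mul,
        coeff_expand_of_not_dvd _ _ _ (by omega), show 2 * k + 1 + 1 = 2 * (k + 1) by ring]
      simp only [T, coeff_mk, s_even, sub_zero]
  · rw [coeff_succ_X_mul, coeff_expand_mul, coeff_expand_of_not_dvd _ _ _ (by omega)]
    simp only [T, coeff_mk, s_odd, pow_succ]
    ring

lemma T2_eq : T ^ 2 = expand 2 two_ne_zero (T ^ 2) - 2 * (X * expand 2 two_ne_zero (T ^ 2)) +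
    X * (X * expand 2 two_ne_zero (T ^ 2)) := by
  conv_lhs => rw [T_eq]
  rw [map_pow]
  ring

lemma t_def (n : ℕ) : t 2 n = coeff n (T ^ 2) := rfl

lemma two_mul_coeff (n : ℕ) (F : ℤ⟦X⟧) : coeff n (2 * F) = 2 * coeff n F := by
  rw [two_mul, two_mul, map_add]

lemma t_odd (n : ℕ) : t 2 (2 * n + 1) = -2 * t 2 n := by
  rw [t_def, t_def]
  conv_lhs => rw [T2_eq]
  rw [map_add, map_sub, two_mul_coeff, coeff_succ_X_mul, coeff_succ_X_mul, coeff_expand_mul,
    coeff_expand_of_not_dvd _ _ _ (by omega)]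
  rcases n with _ | n
  · simp
  · rw [show 2 * (n + 1) = 2 * n + 1 + 1 by ring, coeff_succ_X_mul,
      coeff_expand_of_not_dvd _ _ _ (by omega)]
    ring

lemma t_even (n : ℕ) : t 2 (2 * n + 2) = t 2 (n + 1) + t 2 n := by
  rw [t_def, t_def, t_def]
  conv_lhs => rw [T2_eq]
  rw [map_add, map_sub, two_mul_coeff, coeff_succ_X_mul, coeff_succ_X_mul, coeff_succ_X_mul,
    coeff_expand_mul, coeff_expand_of_not_dvd (m := 2 * n + 1) _ _ _ (by omega),
    show 2 * n + 2 = 2 * (n + 1) by ring, coeff_expand_mul]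
  ring

lemma o (a b : ℕ) (h : a = 2 * b + 1) : t 2 a = -2 * t 2 b := by rw [h, t_odd]
lemma e (a b c : ℕ) (h : a = 2 * c + 2) (h2 : b = c + 1) : t 2 a = t 2 b + t 2 c := by
  rw [h, h2, t_even]

lemma rel1 (u : ℕ) : 4 * t 2 (2 * u + 3) + 7 * t 2 (32 * u + 42) + 5 * t 2 (64 * u + 110) = 0 := by
  have := o (2 * u + 3) (u + 1) (by ring)
  have := e (32 * u + 42) (16 * u + 21) (16 * u + 20) (by ring) (by ring)
  have := o (16 * u + 21) (8 * u + 10) (by ring)
  have := e (8 * u + 10) (4 * u + 5) (4 * u + 4) (by ring) (by ring)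
  have := o (4 * u + 5) (2 * u + 2) (by ring)
  have := e (2 * u + 2) (u + 1) u (by ring) (by ring)
  have := e (4 * u + 4) (2 * u + 2) (2 * u + 1) (by ring) (by ring)
  have := o (2 * u + 1) u (by ring)
  have := e (16 * u + 20) (8 * u + 10) (8 * u + 9) (by ring) (by ring)
  have := o (8 * u + 9) (4 * u + 4) (by ring)
  have := e (64 * u + 110) (32 * u + 55) (32 * u + 54) (by ring) (by ring)
  have := o (32 * u + 55) (16 * u + 27) (by ring)
  have := o (16 * u + 27) (8 * u + 13) (by ring)
  have := o (8 * u + 13) (4 * u + 6) (by ring)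
  have := e (4 * u + 6) (2 * u + 3) (2 * u + 2) (by ring) (by ring)
  have := e (32 * u + 54) (16 * u + 27) (16 * u + 26) (by ring) (by ring)
  have := e (16 * u + 26) (8 * u + 13) (8 * u + 12) (by ring) (by ring)
  have := e (8 * u + 12) (4 * u + 6) (4 * u + 5) (by ring) (by ring)
  omega

lemma rel0 (u : ℕ) : 4 * t 2 (2 * u + 1) + 7 * t 2 (32 * u + 52) + 5 * t 2 (64 * u + 80) = 0 := by
  have := o (2 * u + 1) u (by ring)
  have := e (32 * u + 52) (16 * u + 26) (16 * u + 25) (by ring) (by ring)
  have := e (16 * u + 26) (8 * u + 13) (8 * u + 12) (by ring) (by ring)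
  have := o (8 * u + 13) (4 * u + 6) (by ring)
  have := e (4 * u + 6) (2 * u + 3) (2 * u + 2) (by ring) (by ring)
  have := o (2 * u + 3) (u + 1) (by ring)
  have := e (2 * u + 2) (u + 1) u (by ring) (by ring)
  have := e (8 * u + 12) (4 * u + 6) (4 * u + 5) (by ring) (by ring)
  have := o (4 * u + 5) (2 * u + 2) (by ring)
  have := o (16 * u + 25) (8 * u + 12) (by ring)
  have := e (64 * u + 80) (32 * u + 40) (32 * u + 39) (by ring) (by ring)
  have := e (32 * u + 40) (16 * u + 20) (16 * u + 19) (by ring) (by ring)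
  have := e (16 * u + 20) (8 * u + 10) (8 * u + 9) (by ring) (by ring)
  have := e (8 * u + 10) (4 * u + 5) (4 * u + 4) (by ring) (by ring)
  have := e (4 * u + 4) (2 * u + 2) (2 * u + 1) (by ring) (by ring)
  have := o (8 * u + 9) (4 * u + 4) (by ring)
  have := o (16 * u + 19) (8 * u + 9) (by ring)
  have := o (32 * u + 39) (16 * u + 19) (by ring)
  omega

lemma count (p : ℕ → Prop) [DecidablePred p] (b c d : ℕ) (hb : b ≤ 100) (hc : c ≤ 100)
    (hd : d ≤ 100) (h : ∀ k, p (2 * k + b) ∨ p (32 * k + c) ∨ p (64 * k + d)) :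
    ¬ Tendsto (fun N : ℕ => (((range N).filter p).card : ℝ) / N) atTop (𝓝 0) := by
  intro ht
  have key : ∀ K : ℕ, K ≤ 3 * ((range (64 * K + 100)).filter p).card := by
    intro K
    have inj : ∀ a b : ℕ, 0 < a → a ≤ 64 → b ≤ 100 →
        ((range K).filter fun k => p (a * k + b)).card ≤
          ((range (64 * K + 100)).filter p).card := by
      intro a b ha ha2 hb
      apply card_le_card_of_injOn (fun k => a * k + b)
      · intro k hk
        simp only [coe_filter, mem_range, Set.mem_ofPred_eq] at hk ⊢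
        exact ⟨by nlinarith [hk.1], hk.2⟩
      · intro x _ y _ hxy
        simp only at hxy
        exact Nat.eq_of_mul_eq_mul_left ha (by omega)
    have sub : range K ⊆ ((range K).filter fun k => p (2 * k + b)) ∪
        ((range K).filter fun k => p (32 * k + c)) ∪
        ((range K).filter fun k => p (64 * k + d)) := by
      intro k hk
      simp only [mem_union, mem_filter]
      rcases h k with h | h | h <;> tauto
    have c1 := card_le_card sub
    have c2 := card_union_le (((range K).filter fun k => p (2 * k + b)) ∪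
        ((range K).filter fun k => p (32 * k + c))) ((range K).filter fun k => p (64 * k + d))
    have c3 := card_union_le ((range K).filter fun k => p (2 * k + b))
        ((range K).filter fun k => p (32 * k + c))
    have i1 := inj 2 b (by norm_num) (by norm_num) hb
    have i2 := inj 32 c (by norm_num) (by norm_num) hc
    have i3 := inj 64 d (by norm_num) (by norm_num) hd
    rw [card_range] at c1
    omega
  have ev := ht.eventually (gt_mem_nhds (show (0 : ℝ) < 1 / 1000 by norm_num))
  obtain ⟨N, hN⟩ := eventually_atTop.1 ev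
  have h1 := hN (64 * (N + 1) + 100) (by omega)
  have h2 : ((N + 1 : ℕ) : ℝ) ≤ 3 * ((range (64 * (N + 1) + 100)).filter p).card := by
    exact_mod_cast key (N + 1)
  rw [div_lt_iff₀ (by positivity)] at h1
  push_cast at h1 h2
  have : (0 : ℝ) ≤ N := Nat.cast_nonneg N
  linarith

theorem result (j : ℕ) (hj : j ≤ 1) : ¬ Tendsto (dens 2 j) atTop (𝓝 0) := by
  unfold dens
  interval_cases j
  · apply count _ 1 28 48 (by norm_num) (by norm_num) (by norm_num)
    intro k
    have r := rel0 (3 * k + 1)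
    by_contra hc
    simp only [pow_zero, not_or, not_not, Int.sign_eq_one_iff_pos] at hc
    rw [show 3 * (2 * k + 1) + 0 = 2 * (3 * k + 1) + 1 by ring,
      show 3 * (32 * k + 28) + 0 = 32 * (3 * k + 1) + 52 by ring,
      show 3 * (64 * k + 48) + 0 = 64 * (3 * k + 1) + 80 by ring] at hc
    omega
  · apply count _ 2 35 79 (by norm_num) (by norm_num) (by norm_num)
    intro k
    have r := rel1 (3 * k + 2)
    by_contra hc
    simp only [pow_one, not_or, not_not, Int.sign_eq_neg_one_iff_neg] at hc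
    rw [show 3 * (2 * k + 2) + 1 = 2 * (3 * k + 2) + 3 by ring,
      show 3 * (32 * k + 35) + 1 = 32 * (3 * k + 2) + 42 by ring,
      show 3 * (64 * k + 79) + 1 = 64 * (3 * k + 2) + 110 by ring] at hc
    omega

end Pool.Agent.Results.MP_58bd73_nt.Counter
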